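import Mathlib

set_option autoImplicit false

namespace Pool.Agent.Results.MP_44d715_an.Coercive

open MeasureTheory Set Real Filter Topology

/-- State space `L₂(0,1)`. -/
noncomputable abbrev X := Lp ℝ 2 (volume.restrict (Ioc (0 : ℝ) 1))

/-- Input space `L_∞(ℝ₊)`. -/
noncomputable abbrev U := Lp ℝ ⊤ (volume.restrict (Ioi (0 : ℝ)))

/-- Sine coefficient. -/
noncomputable def co (x : X) (n : ℕ) : ℝ := ∫ z in (0 : ℝ)..1, x z * sin (n * π * z)

/-- The mild solution, described through the eigenfunctions `sin (n π z)` of `A`. -/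
def Mild (φ : ℝ → X → U → X) : Prop := ∀ t ≥ 0, ∀ x u n, co (φ t x u) n =
  exp (-(n * π) ^ 2 * t) * co x n -
    n * π * (-1) ^ n * ∫ s in (0 : ℝ)..t, exp (-(n * π) ^ 2 * (t - s)) * u s

lemma ii (x : X) (g : ℝ → ℝ) (hg : Continuous g) :
    IntervalIntegrable (fun z => x z * g z) volume 0 1 :=
  ((intervalIntegrable_iff_integrableOn_Ioc_of_le zero_le_one).2
    ((Lp.memLp x).integrable (by norm_num))).mul_continuousOn hg.continuousOn

lemma co_sub (x y : X) (n : ℕ) : co (x - y) n = co x n - co y n := by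
  unfold co
  rw [← intervalIntegral.integral_sub (ii _ _ (by fun_prop)) (ii _ _ (by fun_prop)),
    intervalIntegral.integral_of_le zero_le_one, intervalIntegral.integral_of_le zero_le_one]
  exact integral_congr_ae ((Lp.coeFn_sub x y).mono fun z h => by simp only [h, Pi.sub_apply]; ring)

lemma pars (x : X) : HasSum (fun n => 2 * co x n ^ 2) (‖x‖ ^ 2) := by
  let f : ℝ → ℂ := (Ioc 0 1).indicator fun z => (x z : ℂ)
  have f2 : MemLp f 2 volume := (memLp_indicator_iff_restrict measurableSet_Ioc).2 (Lp.memLp x).ofReal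
  have g2 : MemLp (fun z => f z - f (-z)) 2 (volume.restrict (Ioc (-1 : ℝ) 1)) :=
    (f2.sub (f2.comp_measurePreserving (Measure.measurePreserving_neg _))).restrict _
  have sp : ∀ {E : Type} [NormedAddCommGroup E] [NormedSpace ℝ E] (h k : ℝ → E),
      IntegrableOn h (Ioc (-1) 1) → (∀ z ∈ Ioc (0 : ℝ) 1, h (-z) + h z = k z) →
      ∫ z in (-1 : ℝ)..1, h z = ∫ z in (0 : ℝ)..1, k z := fun h k a b => by
    rw [← intervalIntegrable_iff_integrableOn_Ioc_of_le (by norm_num)] at a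
    have a1 : IntervalIntegrable h volume (-1) 0 := a.mono_set (by simp [Icc_subset_Icc_iff])
    have a2 : IntervalIntegrable h volume 0 1 := a.mono_set (by simp [Icc_subset_Icc_iff])
    have a3 : IntervalIntegrable (fun z => h (-z)) volume 0 1 := by
      simpa using ((IntervalIntegrable.iff_comp_neg (by simp)).1 a1).symm
    rw [← intervalIntegral.integral_add_adjacent_intervals a1 a2,
      show ∫ z in (-1 : ℝ)..0, h z = ∫ z in (0 : ℝ)..1, h (-z) by simp,
      ← intervalIntegral.integral_add a3 a2]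
    exact intervalIntegral.integral_congr_ae (.of_forall fun z hz => b z (by simpa using hz))
  have fz : ∀ z ∈ Ioc (0 : ℝ) 1, f z = x z ∧ f (-z) = 0 := fun z hz =>
    ⟨indicator_of_mem hz _, indicator_of_notMem (fun h => by linarith [h.1, hz.1]) _⟩
  have H := hasSum_sq_fourierCoeffOn (by norm_num) g2
  have A : ∀ i : ℤ, ‖fourierCoeffOn (by norm_num : (-1 : ℝ) < 1) (fun z => f z - f (-z)) i‖ ^ 2 =
      (∫ z in (0 : ℝ)..1, x z * sin (i * π * z)) ^ 2 := fun i => by
    rw [fourierCoeffOn_eq_integral, sp (fun z => fourier (-i) (z : AddCircle (1 - -1 : ℝ)) •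
      (f z - f (-z))) (fun z => (-2 * Complex.I) * (x z * sin (i * π * z) : ℝ))
      ((g2.integrable (by norm_num)).bdd_mul (c := 1) (Continuous.aestronglyMeasurable (by fun_prop))
        (.of_forall fun z => (Circle.norm_coe _).le)) fun z hz => ?_,
      intervalIntegral.integral_const_mul, intervalIntegral.integral_ofReal]
    · norm_num [norm_smul, ← mul_assoc]
    · simp only [fourier_coe_apply, neg_neg, (fz z hz).1, (fz z hz).2, smul_eq_mul]
      push_cast
      rw [Complex.sin, show 2 * π * Complex.I * -i * -z / (1 - -1) = i * π * z * Complex.I by ring,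
        show 2 * π * Complex.I * -i * z / (1 - -1) = -(i * π * z) * Complex.I by ring]
      linear_combination (x z * (Complex.exp (-(i * π * z) * Complex.I) -
        Complex.exp (i * π * z * Complex.I))) * Complex.I_mul_I
  rw [sp _ (fun z => 2 * x z ^ 2) (g2.norm.integrable_sq) (fun z hz => by
    simp [(fz z hz).1, (fz z hz).2]; ring), intervalIntegral.integral_const_mul] at H
  simp only [A] at H
  convert H.nat_add_neg using 1
  · ext n; simp [co, two_mul]
  · rw [intervalIntegral.integral_of_le zero_le_one, ← real_inner_self_eq_norm_sq, L2.inner_def]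
    norm_num [← mul_assoc]

theorem result (φ : ℝ → X → U → X) (hφ : Mild φ) :
    ∃ (V : X → ℝ) (c : ℝ), 0 < c ∧ Continuous V ∧ (∀ x, c * ‖x‖ ^ 8 ≤ V x ∧ V x ≤ ‖x‖ ^ 8) ∧
      ∀ x u, limsup (fun h => (((V (φ h x u) - V x) / h : ℝ) : EReal)) (𝓝[>] 0) ≤
        (-(c * ‖x‖ ^ 8) + ‖u‖ ^ 8 : ℝ) := by
  let R : X → Set ℝ := fun x =>
    {r | ∃ y, ‖y‖ ≤ r ∧ ∀ n : ℕ, (n : ℝ) ^ 6 * (co x n - co y n) ^ 8 ≤ r ^ 8}
  have R0 : ∀ x, ∀ r ∈ R x, 0 ≤ r := fun x r ⟨y, h, _⟩ => (norm_nonneg _).trans h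
  have R1 : ∀ x, ‖x‖ ∈ R x := fun x => ⟨x, le_rfl, fun n => by simp⟩
  have bd : ∀ x, BddBelow (R x) := fun x => ⟨0, R0 x⟩
  have W0 : ∀ x, 0 ≤ sInf (R x) := fun x => le_csInf ⟨_, R1 x⟩ (R0 x)
  obtain ⟨S, hS⟩ := (summable_nat_rpow.2 (by norm_num : (-3 / 2 : ℝ) < -1)).mul_left 2
  have S0 : 0 ≤ S := hS.nonneg fun n => by positivity
  have lo : ∀ x, ‖x‖ ≤ (1 + √S) * sInf (R x) := fun x => by
    rw [← div_le_iff₀' (by positivity)]
    refine le_csInf ⟨_, R1 x⟩ fun r ⟨y, a, b⟩ => ?_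
    have r0 := (norm_nonneg _).trans a
    have : ‖x - y‖ ^ 2 ≤ S * r ^ 2 := hasSum_le (fun n => by
      rw [co_sub, mul_assoc]
      rcases n.eq_zero_or_pos with rfl | hn
      · simp [co]
      have : (0 : ℝ) < n := by exact_mod_cast hn
      gcongr
      refine (pow_le_pow_iff_left₀ (by positivity) (by positivity) four_ne_zero).1 ?_
      rw [mul_pow, ← rpow_natCast ((n : ℝ) ^ (-3 / 2 : ℝ)), ← rpow_mul this.le, ← pow_mul, ← pow_mul]
      norm_num
      rw [le_inv_mul_iff₀ (by positivity)]; exact_mod_cast b n) (pars _) (hS.mul_right _)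
    have : ‖x - y‖ ≤ √S * r := abs_le_of_sq_le_sq' (by rwa [mul_pow, sq_sqrt S0]) (by positivity) |>.2
    rw [div_le_iff₀' (by positivity)]
    linarith [norm_le_norm_add_norm_sub' x y]
  have Wc : Continuous fun x => sInf (R x) := (LipschitzWith.of_le_add fun x x' => by
    rw [← sub_le_iff_le_add]
    refine le_csInf ⟨_, R1 x'⟩ fun r ⟨y, a, b⟩ => sub_le_iff_le_add.2 (csInf_le (bd x)
      ⟨y - (x' - x), (norm_sub_le _ _).trans (by rw [dist_comm, dist_eq_norm]; linarith), fun n => ?_⟩)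
    rw [co_sub, co_sub, show co x n - (co y n - (co x' n - co x n)) = co x' n - co y n by ring]
    exact (b n).trans (by gcongr; exacts [(norm_nonneg _).trans a, by simp])).continuous
  have key : ∀ h ≥ 0, ∀ x u, sInf (R (φ h x u)) ^ 8 ≤ exp (-h) * sInf (R x) ^ 8 + h * ‖u‖ ^ 8 := by
    intro h h0 x u
    refine (isClosed_le (f := fun _ => sInf (R (φ h x u)) ^ 8)
      (g := fun r : ℝ => exp (-h) * r ^ 8 + h * ‖u‖ ^ 8) (by fun_prop) (by fun_prop)).closure_subset_iff.2
      (fun r hr => ?_) (csInf_mem_closure ⟨_, R1 x⟩ (bd x))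
    obtain ⟨y, a, b⟩ := hr
    have r0 := (norm_nonneg _).trans a
    obtain ⟨r', r1, r2⟩ : ∃ r' ≥ 0, r' ^ 8 = exp (-h) * r ^ 8 + h * ‖u‖ ^ 8 :=
      ⟨_, rpow_nonneg (by positivity) _, rpow_inv_natCast_pow (by positivity) (by norm_num)⟩
    have z : ∀ n : ℕ, co (φ h y 0) n = exp (-(n * π) ^ 2 * h) * co y n := fun n => by
      rw [hφ h h0, intervalIntegral.integral_of_le h0, integral_eq_zero_of_ae, mul_zero, sub_zero]
      exact (ae_restrict_of_ae_restrict_of_subset Ioc_subset_Ioi_self (Lp.coeFn_zero ℝ ⊤ _)).mono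
        fun s hs => by simp only [hs, Pi.zero_apply, mul_zero]
    have ex : ∀ n : ℕ, 0 < n → 1 ≤ n * π ∧ exp (-(n * π) ^ 2 * h) ≤ exp (-h) := fun n hn => by
      have : (1 : ℝ) ≤ n := by exact_mod_cast hn
      have : 1 ≤ n * π := by nlinarith [pi_gt_three]
      exact ⟨this, exp_le_exp.2 (by nlinarith [mul_nonneg h0 (by nlinarith : 0 ≤ (n * π) ^ 2 - 1)])⟩
    have e1 : exp (-h) ≤ 1 := exp_le_one_iff.2 (by linarith)
    rw [mem_ofPred_eq, ← r2]
    refine pow_le_pow_left₀ (W0 _) (csInf_le (bd _) ⟨φ h y 0, ?_, fun n => ?_⟩) 8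
    · have : ‖φ h y 0‖ ^ 2 ≤ exp (-h) ^ 2 * ‖y‖ ^ 2 := hasSum_le (fun n => by
        rcases n.eq_zero_or_pos with rfl | hn
        · simp [co]
        rw [z, mul_pow, mul_left_comm]
        gcongr ?_ ^ 2 * _; exact (ex n hn).2) (pars _) ((pars _).mul_left _)
      refine (pow_le_pow_iff_left₀ (norm_nonneg _) r1 (by norm_num : 8 ≠ 0)).1 ?_
      have : (‖φ h y 0‖ ^ 2) ^ 4 ≤ (exp (-h) ^ 2 * r ^ 2) ^ 4 := by
        gcongr; exact this.trans (by gcongr)
      have : exp (-h) ^ 8 ≤ exp (-h) := pow_le_of_le_one (exp_pos _).le e1 (by norm_num)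
      have : exp (-h) ^ 8 * r ^ 8 ≤ exp (-h) * r ^ 8 := by gcongr
      have : 0 ≤ h * ‖u‖ ^ 8 := by positivity
      nlinarith
    rcases n.eq_zero_or_pos with rfl | hn
    · simp; positivity
    obtain ⟨p1, p2⟩ := ex n hn
    rw [z, hφ h h0, r2]
    set p := n * π with hp
    set θ := exp (-p ^ 2 * h) with hθ
    have t0 : 0 ≤ θ := (exp_pos _).le
    have I : |∫ s in (0 : ℝ)..h, exp (-p ^ 2 * (h - s)) * u s| ≤ (1 - θ) / p ^ 2 * ‖u‖ := by
      have : ∫ s in (0 : ℝ)..h, exp (-p ^ 2 * (h - s)) * ‖u‖ = (1 - θ) / p ^ 2 * ‖u‖ := by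
        rw [intervalIntegral.integral_mul_const,
          intervalIntegral.integral_comp_sub_left (fun s => exp (-p ^ 2 * s)),
          intervalIntegral.integral_comp_mul_left (fun s => exp s) (by simp; linarith)]
        simp [hθ]; ring
      rw [← this]
      rw [← Real.norm_eq_abs]
      refine intervalIntegral.norm_integral_le_of_norm_le h0 ?_
        (Continuous.intervalIntegrable (by fun_prop) _ _)
      filter_upwards [(ae_restrict_iff' measurableSet_Ioi).1 (ae_le_eLpNormEssSup (f := u))] with s hs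
        hs'
      rw [norm_mul, Real.norm_of_nonneg (exp_pos _).le]
      gcongr
      rw [Lp.norm_def, eLpNorm_exponent_top, ← toReal_enorm]
      exact ENNReal.toReal_mono (by simpa using Lp.eLpNorm_ne_top u) (hs hs'.1)
    have J := (Even.convexOn_pow (𝕜 := ℝ) (by decide : Even 8)).2 (mem_univ |co x n - co y n|)
      (mem_univ (‖u‖ / p)) t0 (by linarith : 0 ≤ 1 - θ) (by ring)
    simp only [smul_eq_mul] at J
    have K : (θ * co x n - p * (-1) ^ n * (∫ s in (0 : ℝ)..h, exp (-p ^ 2 * (h - s)) * u s) -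
        θ * co y n) ^ 8 ≤ (θ * |co x n - co y n| + (1 - θ) * (‖u‖ / p)) ^ 8 := by
      rw [← Even.pow_abs (by decide), sub_right_comm, ← mul_sub]
      gcongr
      refine (abs_sub _ _).trans ?_
      rw [abs_mul, abs_mul, abs_mul, abs_of_nonneg t0, abs_of_pos (by linarith : 0 < p), abs_pow, abs_neg,
        abs_one, one_pow, mul_one]
      exact add_le_add_right ((mul_le_mul_of_nonneg_left I (by linarith : 0 ≤ p)).trans_eq
        (by field_simp)) _
    rw [Even.pow_abs (by decide)] at J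
    have L : (n : ℝ) ^ 6 * ((1 - θ) * (‖u‖ / p) ^ 8) ≤ h * ‖u‖ ^ 8 := by
      have : 1 - θ ≤ p ^ 2 * h := by linarith [add_one_le_exp (-p ^ 2 * h)]
      have : (n : ℝ) ≤ p := by nlinarith [pi_gt_three, n.cast_nonneg (α := ℝ)]
      have : 0 ≤ 1 - θ := by linarith
      exact (by gcongr : _ ≤ p ^ 6 * (p ^ 2 * h * (‖u‖ / p) ^ 8)).trans_eq (by field_simp)
    have M := mul_le_mul p2 (b n) (by positivity) (exp_pos _).le
    nlinarith [mul_le_mul_of_nonneg_left (K.trans J) (by positivity : (0 : ℝ) ≤ n ^ 6)]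
  have lo' : ∀ x, ((1 + √S) ^ 8)⁻¹ * ‖x‖ ^ 8 ≤ sInf (R x) ^ 8 := fun x => by
    rw [inv_mul_le_iff₀ (by positivity), ← mul_pow]; gcongr; exact lo x
  refine ⟨fun x => sInf (R x) ^ 8, ((1 + √S) ^ 8)⁻¹, by positivity, Wc.pow 8,
    fun x => ⟨lo' x, pow_le_pow_left₀ (W0 x) (csInf_le (bd x) (R1 x)) 8⟩, fun x u => ?_⟩
  have T := (((hasDerivAt_neg (0 : ℝ)).exp.tendsto_slope_zero_right.mul_const
    (sInf (R x) ^ 8)).add_const (‖u‖ ^ 8))
  refine (limsup_le_limsup ?_).trans ((EReal.tendsto_coe.2 T).limsup_eq.trans_le ?_)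
  · filter_upwards [self_mem_nhdsWithin] with h (h0 : 0 < h)
    rw [EReal.coe_le_coe_iff, div_le_iff₀ h0]
    have := key h h0.le x u
    simp; field_simp; linarith
  · rw [EReal.coe_le_coe_iff]; simp; linarith [lo' x]

end Pool.Agent.Results.MP_44d715_an.Coercive
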